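import Pool.Agent.Y842.EL.Dens

/-!
Library Y842.EL (helper842), part 4: from bounds at almost all scales to logarithmic averages at every scale.
-/

set_option autoImplicit false

open Finset Filter

namespace Pool.Agent.Y842.EL

open Pool.Agent.Y958.U (LZ)
open Pool.Agent.Y304.U (ind sE LZ_iff sE_nonneg ind_nonneg ind_le)

/-- summation by parts -/
lemma abel_log (u : ℕ → ℝ) (X : ℕ) (hX : 1 ≤ X) :
    ∑ n ∈ Icc 1 X, u n / n = (∑ n ∈ range (X + 1), u n) / X - u 0 +
      ∑ n ∈ Ico 2 (X + 1), (∑ m ∈ range n, u m) * (1 / ((n : ℝ) - 1) - 1 / n) := by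
  induction X with
  | zero => omega
  | succ X ih =>
    rcases Nat.eq_zero_or_pos X with h0 | h0
    · subst h0
      simp [sum_range_succ]
    · rw [sum_Icc_succ_top (by omega), ih h0, sum_Ico_succ_top (by omega : 2 ≤ X + 1),
        sum_range_succ _ (X + 1)]
      have h1 : (X : ℝ) ≠ 0 := by exact_mod_cast (by omega : X ≠ 0)
      have h2 : (X : ℝ) + 1 ≠ 0 := by positivity
      push_cast
      rw [add_sub_cancel_right]
      field_simp
      ring

lemma harm_le (X : ℕ) (hX : 1 ≤ X) : ∑ n ∈ Ico 2 (X + 1), 1 / ((n : ℝ) - 1) ≤ 1 + Real.log X := by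
  have h1 : ∑ n ∈ Ico 2 (X + 1), 1 / ((n : ℝ) - 1) ≤ ((harmonic X : ℚ) : ℝ) := by
    rw [harmonic_eq_sum_Icc]
    push_cast
    have h2 := sum_Ico_add' (fun n : ℕ => 1 / ((n : ℝ) - 1)) 1 X 1
    rw [show 1 + 1 = 2 by norm_num] at h2
    rw [← h2]
    have h3 : Ico 1 X ⊆ Icc 1 X := Ico_subset_Icc_self
    refine le_trans ?_ (sum_le_sum_of_subset_of_nonneg h3 fun n _ _ => by positivity)
    apply le_of_eq
    refine sum_congr rfl fun n _ => ?_
    push_cast
    rw [add_sub_cancel_right, one_div]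
  exact h1.trans (harmonic_le_one_add_log X)

/-- logarithmic averages at every scale -/
theorem log_avg (F : Set ℕ) (hF : LZ F) (u : ℕ → ℝ) (hu : ∀ n, |u n| ≤ 1) (β : ℝ) (hβ : 0 ≤ β)
    (h : ∀ ε : ℝ, 0 < ε → ∃ N₀ : ℕ, ∀ N : ℕ, N₀ ≤ N → N ∉ F → |∑ n ∈ range N, u n| ≤ (β + ε) * N)
    (ε : ℝ) (hε : 0 < ε) : ∃ X₀ : ℕ, ∀ X : ℕ, X₀ ≤ X → |∑ n ∈ Icc 1 X, u n / n| ≤ (β + ε) * Real.log X := by
  classical
  obtain ⟨N₀, h1⟩ := h (ε / 4) (by positivity)
  obtain ⟨X₁, h2⟩ := (LZ_eps F).1 hF (ε / 8) (by positivity)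
  have h3 : Tendsto (fun X : ℕ => Real.log (X : ℝ)) atTop atTop :=
    Real.tendsto_log_atTop.comp tendsto_natCast_atTop_atTop
  obtain ⟨X₂, h4⟩ := eventually_atTop.1 (h3.eventually_ge_atTop ((3 + (β + ε) + N₀) / (ε / 2)))
  refine ⟨max 2 (max X₁ X₂), fun X hX => ?_⟩
  have hX2 : 2 ≤ X := le_trans (le_max_left _ _) hX
  have h5 := h2 X (le_trans (le_trans (le_max_left _ _) (le_max_right _ _)) hX)
  have h6 := h4 X (le_trans (le_trans (le_max_right _ _) (le_max_right _ _)) hX)
  rw [div_le_iff₀ (by positivity)] at h6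
  have hT : ∀ n : ℕ, |∑ m ∈ range n, u m| ≤ n := by
    intro n
    refine (abs_sum_le_sum_abs _ _).trans ?_
    refine (sum_le_sum fun m _ => hu m).trans ?_
    simp
  have hXr : (2 : ℝ) ≤ X := by exact_mod_cast hX2
  have hlog0 : 0 ≤ Real.log (X : ℝ) := Real.log_nonneg (by linarith)
  rw [abel_log u X (by omega)]
  have h7 : |(∑ n ∈ range (X + 1), u n) / X| ≤ 2 := by
    rw [abs_div, abs_of_pos (by linarith : (0 : ℝ) < X), div_le_iff₀ (by linarith)]
    refine (hT (X + 1)).trans ?_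
    push_cast
    linarith
  have h8 : |∑ n ∈ Ico 2 (X + 1), (∑ m ∈ range n, u m) * (1 / ((n : ℝ) - 1) - 1 / n)| ≤
      (β + ε / 4) * (1 + Real.log X) + N₀ + ε / 4 * Real.log X := by
    refine (abs_sum_le_sum_abs _ _).trans ?_
    have h9 : ∀ n ∈ Ico 2 (X + 1), |(∑ m ∈ range n, u m) * (1 / ((n : ℝ) - 1) - 1 / n)| ≤
        (β + ε / 4) * (1 / ((n : ℝ) - 1)) + (if n < N₀ then (1 : ℝ) else 0) + 2 * (ind F n / n) := by
      intro n hn
      rw [mem_Ico] at hn
      have hn2 : (2 : ℝ) ≤ n := by exact_mod_cast hn.1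
      have hn1 : (0 : ℝ) < (n : ℝ) - 1 := by linarith
      have e1 : 1 / ((n : ℝ) - 1) - 1 / n = 1 / (((n : ℝ) - 1) * n) := by
        field_simp
        ring
      rw [e1, abs_mul, abs_of_pos (by positivity : (0 : ℝ) < 1 / (((n : ℝ) - 1) * n))]
      have hB : 0 ≤ (β + ε / 4) * (1 / ((n : ℝ) - 1)) := by positivity
      have hI : 0 ≤ 2 * (ind F n / n) := by
        have := ind_nonneg F n
        positivity
      have hk : |∑ m ∈ range n, u m| * (1 / (((n : ℝ) - 1) * n)) ≤ 1 / ((n : ℝ) - 1) := by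
        calc |∑ m ∈ range n, u m| * (1 / (((n : ℝ) - 1) * n)) ≤ n * (1 / (((n : ℝ) - 1) * n)) :=
              mul_le_mul_of_nonneg_right (hT n) (by positivity)
          _ = 1 / ((n : ℝ) - 1) := by field_simp
      by_cases hnN : n < N₀
      · rw [if_pos hnN]
        have : 1 / ((n : ℝ) - 1) ≤ 1 := by
          rw [div_le_one hn1]
          linarith
        linarith
      · rw [if_neg hnN]
        by_cases hnF : n ∈ F
        · have e2 : ind F n = 1 := by
            unfold ind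
            rw [if_pos hnF]
          rw [e2]
          have : 1 / ((n : ℝ) - 1) ≤ 2 * (1 / n) := by
            rw [div_le_iff₀ hn1]
            have : 2 * (1 / (n : ℝ)) * ((n : ℝ) - 1) = 2 - 2 / n := by field_simp
            rw [this]
            have : 2 / (n : ℝ) ≤ 1 := by
              rw [div_le_one (by linarith)]
              exact hn2
            linarith
          linarith
        · have h10 := h1 n (by omega) hnF
          have : |∑ m ∈ range n, u m| * (1 / (((n : ℝ) - 1) * n)) ≤ (β + ε / 4) * (1 / ((n : ℝ) - 1)) := by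
            calc |∑ m ∈ range n, u m| * (1 / (((n : ℝ) - 1) * n)) ≤
                  ((β + ε / 4) * n) * (1 / (((n : ℝ) - 1) * n)) :=
                  mul_le_mul_of_nonneg_right h10 (by positivity)
              _ = (β + ε / 4) * (1 / ((n : ℝ) - 1)) := by field_simp
          linarith
    refine (sum_le_sum h9).trans ?_
    rw [sum_add_distrib, sum_add_distrib, ← mul_sum, ← mul_sum]
    have h11 := harm_le X (by omega)
    have h12 : ∑ n ∈ Ico 2 (X + 1), (if n < N₀ then (1 : ℝ) else 0) ≤ N₀ := by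
      rw [← sum_filter, sum_const, nsmul_eq_mul, mul_one]
      have : ((Ico 2 (X + 1)).filter (fun n => n < N₀)).card ≤ (range N₀).card :=
        card_le_card fun n hn => mem_range.2 (mem_filter.1 hn).2
      rw [card_range] at this
      exact_mod_cast this
    have h13 : ∑ n ∈ Ico 2 (X + 1), ind F n / (n : ℝ) ≤ sE F X := by
      unfold sE
      apply sum_le_sum_of_subset_of_nonneg
      · intro n hn
        rw [mem_Ico] at hn
        rw [mem_Icc]
        omega
      · intro n _ _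
        exact div_nonneg (ind_nonneg F n) (Nat.cast_nonneg n)
    have h14 : (β + ε / 4) * ∑ n ∈ Ico 2 (X + 1), 1 / ((n : ℝ) - 1) ≤ (β + ε / 4) * (1 + Real.log X) :=
      mul_le_mul_of_nonneg_left h11 (by positivity)
    linarith
  have h15 := abs_add_le ((∑ n ∈ range (X + 1), u n) / (X : ℝ) - u 0)
    (∑ n ∈ Ico 2 (X + 1), (∑ m ∈ range n, u m) * (1 / ((n : ℝ) - 1) - 1 / n))
  have h16 := abs_sub (a := (∑ n ∈ range (X + 1), u n) / (X : ℝ)) (b := u 0)
  have h17 := hu 0
  nlinarith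

end Pool.Agent.Y842.EL
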