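import Pool.Agent.Y842.EL.One

/-!
Library Y842.EL (helper842), part 3: the pairing `P(n) P(n + d) = λ(an + c) λ(a(n + kd) + c)`.
-/

set_option autoImplicit false

open Finset Filter

namespace Pool.Agent.Y842.EL

open Pool.Agent.Y958.U (LZ)
open Pool.Agent.H376R2.MR (lam)

/-- the product of `k` values of the Liouville function along `a n + c`, `a (n + d) + c`, ... -/
def PL (a c d k n : ℕ) : ℤ := ∏ j ∈ range k, lam (a * (n + j * d) + c)

lemma PL_pm (a c d k n : ℕ) : PL a c d k n = 1 ∨ PL a c d k n = -1 := by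
  unfold PL
  induction k with
  | zero => left; simp
  | succ k ih =>
    rw [prod_range_succ]
    rcases ih with h | h <;> rcases lam_pm (a * (n + k * d) + c) with h' | h' <;> rw [h, h'] <;> norm_num

lemma PL_sq (a c d k n : ℕ) : PL a c d k n * PL a c d k n = 1 := by
  rcases PL_pm a c d k n with h | h <;> rw [h] <;> norm_num

lemma PL_pair (a c d k n : ℕ) : PL a c d k n * PL a c d k (n + d) = yy a c (k * d) n := by
  have h1 : PL a c d k (n + d) * lam (a * n + c) = PL a c d k n * lam (a * (n + k * d) + c) := by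
    have h2 := prod_range_succ' (fun j => lam (a * (n + j * d) + c)) k
    have h3 := prod_range_succ (fun j => lam (a * (n + j * d) + c)) k
    rw [h3] at h2
    unfold PL
    rw [h2]
    simp only [zero_mul, add_zero]
    congr 1
    refine prod_congr rfl fun j _ => ?_
    rw [show n + (j + 1) * d = n + d + j * d by ring]
  have h4 : PL a c d k (n + d) = PL a c d k n * lam (a * (n + k * d) + c) * lam (a * n + c) := by
    rw [← h1, mul_assoc, lam_mul_self, mul_one]
  rw [h4]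
  unfold yy
  have h5 := PL_sq a c d k n
  calc PL a c d k n * (PL a c d k n * lam (a * (n + k * d) + c) * lam (a * n + c)) =
        (PL a c d k n * PL a c d k n) * (lam (a * n + c) * lam (a * (n + k * d) + c)) := by ring
    _ = lam (a * n + c) * lam (a * (n + k * d) + c) := by rw [h5, one_mul]

/-- half of the sum of the norms of sum and difference -/
noncomputable def sa (u v : ℂ) : ℝ := (‖u + v‖ + ‖u - v‖) / 2

/-- half of the difference of the norms of sum and difference -/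
noncomputable def sb (u v : ℂ) : ℝ := (‖u + v‖ - ‖u - v‖) / 2

lemma sb_le (u v : ℂ) (hv : ‖v‖ ≤ 1) : |sb u v| ≤ 1 := by
  unfold sb
  have h1 : |‖u + v‖ - ‖u - v‖| ≤ ‖(u + v) - (u - v)‖ := abs_norm_sub_norm_le _ _
  have h2 : (u + v) - (u - v) = 2 * v := by ring
  rw [h2, norm_mul] at h1
  have h3 : ‖(2 : ℂ)‖ = 2 := by simp
  rw [h3] at h1
  rw [abs_div, abs_of_pos (by norm_num : (0 : ℝ) < 2), div_le_iff₀ (by norm_num)]
  linarith

lemma norm_pm (u v : ℂ) (x y : ℤ) (hx : x = 1 ∨ x = -1) (hy : y = 1 ∨ y = -1) :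
    ‖u * x + v * y‖ = sa u v + sb u v * ((x * y : ℤ) : ℝ) := by
  unfold sa sb
  rcases hx with rfl | rfl <;> rcases hy with rfl | rfl
  · simp
    ring
  · simp
    ring_nf
  · simp
    rw [show -u + v = -(u - v) by ring, norm_neg]
    ring
  · simp
    rw [show -u + -v = -(u + v) by ring, norm_neg]
    ring

/-- shifting a bounded sum -/
lemma shift_sum (g : ℕ → ℂ) (hg : ∀ n, ‖g n‖ ≤ 1) (N d : ℕ) :
    2 * ‖∑ n ∈ range N, g n‖ ≤ ‖∑ n ∈ range N, (g n + g (n + d))‖ + 2 * d := by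
  have h1 : ∑ n ∈ range N, g (n + d) + ∑ n ∈ range d, g n =
      ∑ n ∈ range N, g n + ∑ n ∈ range d, g (N + n) := by
    rw [← sum_range_add g N d]
    have h2 : ∑ n ∈ range N, g (n + d) = ∑ n ∈ range N, g (d + n) :=
      sum_congr rfl fun n _ => by rw [add_comm]
    rw [h2, add_comm (∑ n ∈ range N, g (d + n)), ← sum_range_add g d N, add_comm d N]
  have h3 : (2 : ℂ) * ∑ n ∈ range N, g n = ∑ n ∈ range N, (g n + g (n + d)) +
      (∑ n ∈ range d, g n - ∑ n ∈ range d, g (N + n)) := by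
    rw [sum_add_distrib]
    linear_combination -h1
  have h4 : ‖∑ n ∈ range d, g n‖ ≤ d := by
    refine (norm_sum_le _ _).trans ?_
    refine (sum_le_sum fun n _ => hg n).trans ?_
    simp
  have h5 : ‖∑ n ∈ range d, g (N + n)‖ ≤ d := by
    refine (norm_sum_le _ _).trans ?_
    refine (sum_le_sum fun n _ => hg (N + n)).trans ?_
    simp
  have h6 : 2 * ‖∑ n ∈ range N, g n‖ = ‖(2 : ℂ) * ∑ n ∈ range N, g n‖ := by
    rw [norm_mul]
    simp
  rw [h6, h3]
  have h7 := norm_add_le (∑ n ∈ range N, (g n + g (n + d)))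
    (∑ n ∈ range d, g n - ∑ n ∈ range d, g (N + n))
  have h8 := norm_sub_le (∑ n ∈ range d, g n) (∑ n ∈ range d, g (N + n))
  linarith

/-- **the main bound**: weights `w(n) e(α n)` with `w` periodic -/
theorem main : ∃ F : Set ℕ, LZ F ∧ ∀ a c d k q : ℕ, 1 ≤ a → 1 ≤ d → 1 ≤ k → 1 ≤ q → ∀ ε : ℝ, 0 < ε →
    ∃ N₀ : ℕ, ∀ N : ℕ, N₀ ≤ N → N ∉ F → ∀ (w : ℕ → ℂ) (z : ℂ), ‖z‖ = 1 → (∀ n, ‖w n‖ ≤ 1) →
      (∀ n, w (n + q) = w n) →
      ‖∑ n ∈ range N, w n * z ^ n * PL a c d k n‖ ≤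
        (1 / 2) * ∑ n ∈ range N, sa (w n * z ^ n) (w (n + d) * z ^ (n + d)) + ε * N := by
  obtain ⟨F, hF, h1⟩ := per_sum
  refine ⟨F, hF, fun a c d k q ha hd hk hq ε hε => ?_⟩
  obtain ⟨N₁, h2⟩ := h1 (k * d) a c q (Nat.mul_pos hk hd) ha hq ε hε
  obtain ⟨N₂, hN₂⟩ := exists_nat_gt (2 * d / ε)
  refine ⟨max N₁ N₂, fun N hN hNF w z hz hw hwq => ?_⟩
  set g : ℕ → ℂ := fun n => w n * z ^ n * PL a c d k n with hg
  have hPn : ∀ n, ‖((PL a c d k n : ℤ) : ℂ)‖ = 1 := by
    intro n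
    rcases PL_pm a c d k n with h | h <;> rw [h] <;> simp
  have hg1 : ∀ n, ‖g n‖ ≤ 1 := by
    intro n
    rw [hg]
    simp only
    rw [norm_mul, norm_mul, norm_pow, hz, hPn, one_pow, mul_one, mul_one]
    exact hw n
  have h3 := shift_sum g hg1 N d
  have h4 : ‖∑ n ∈ range N, (g n + g (n + d))‖ ≤
      ∑ n ∈ range N, sa (w n * z ^ n) (w (n + d) * z ^ (n + d)) +
        ∑ n ∈ range N, sb (w n) (w (n + d) * z ^ d) * yy a c (k * d) n := by
    refine (norm_sum_le _ _).trans ?_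
    rw [← sum_add_distrib]
    refine sum_le_sum fun n _ => ?_
    have h5 := norm_pm (w n * z ^ n) (w (n + d) * z ^ (n + d)) (PL a c d k n) (PL a c d k (n + d))
      (PL_pm a c d k n) (PL_pm a c d k (n + d))
    rw [PL_pair] at h5
    rw [hg]
    simp only
    rw [h5]
    have h6 : sb (w n * z ^ n) (w (n + d) * z ^ (n + d)) = sb (w n) (w (n + d) * z ^ d) := by
      unfold sb
      rw [show w n * z ^ n + w (n + d) * z ^ (n + d) = (w n + w (n + d) * z ^ d) * z ^ n by
        rw [pow_add]; ring]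
      rw [show w n * z ^ n - w (n + d) * z ^ (n + d) = (w n - w (n + d) * z ^ d) * z ^ n by
        rw [pow_add]; ring]
      rw [norm_mul, norm_mul, norm_pow, hz, one_pow, mul_one, mul_one]
    rw [h6]
  have h7 := h2 N (le_trans (le_max_left _ _) hN) hNF (fun n => sb (w n) (w (n + d) * z ^ d)) (by
    intro n
    apply sb_le
    rw [norm_mul, norm_pow, hz, one_pow, mul_one]
    exact hw _) (by
    intro n
    show sb (w (n + q)) (w (n + q + d) * z ^ d) = sb (w n) (w (n + d) * z ^ d)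
    rw [hwq, show n + q + d = n + d + q by ring, hwq])
  have h8 : (2 : ℝ) * d ≤ ε * N := by
    have h9 : (N₂ : ℝ) ≤ N := by exact_mod_cast (le_trans (le_max_right _ _) hN)
    rw [div_lt_iff₀ hε] at hN₂
    nlinarith
  have h10 := le_abs_self (∑ n ∈ range N, sb (w n) (w (n + d) * z ^ d) * yy a c (k * d) n)
  have h11 : ∑ n ∈ range N, sb (w n) (w (n + d) * z ^ d) * (yy a c (k * d) n : ℝ) ≤ ε * N :=
    h10.trans h7
  linarith

end Pool.Agent.Y842.EL
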